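import Mathlib

/-! Two-fold covers: the matching at the vertices (helper for MP_781dd6_co). -/

set_option autoImplicit false

namespace Pool.Agent.K4H37.TF

open Finset
open scoped Classical

variable {V ι : Type}

/-- abstract double cover by directed cycles: `A i u v` says that the cycle `i` traverses the arc
from `u` to `v` -/
structure Sys (G : SimpleGraph V) [Fintype ι] (A : ι → V → V → Prop) : Prop where
  adj : ∀ i u v, A i u v → G.Adj u v
  out : ∀ i u v w, A i u v → A i u w → v = w
  inn : ∀ i u v w, A i u w → A i v w → u = v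
  nxt : ∀ i u v, A i u v → ∃ w, A i v w
  prv : ∀ i u v, A i u v → ∃ t, A i t u
  anti : ∀ i u v, A i u v → ¬ A i v u
  two : ∀ u v, G.Adj u v → #{i | A i u v ∨ A i v u} = 2

variable [Fintype V] [Fintype ι] {G : SimpleGraph V} {A : ι → V → V → Prop}

omit [Fintype V] in
theorem Sys.below_le (S : Sys G A) (v : V) (s : Finset {w // G.Adj v w}) (i : ι) :
    #(s.filter fun w => A i v w.1 ∨ A i w.1 v) ≤ 2 := by
  have h1 : (s.filter fun w => A i v w.1 ∨ A i w.1 v) =
      (s.filter fun w => A i v w.1) ∪ (s.filter fun w => A i w.1 v) := by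
    rw [← Finset.filter_or]
  rw [h1]
  refine (card_union_le _ _).trans ?_
  have h2 : #(s.filter fun w => A i v w.1) ≤ 1 := by
    rw [card_le_one]
    intro a ha b hb
    simp only [mem_filter] at ha hb
    exact Subtype.ext (S.out i v _ _ ha.2 hb.2)
  have h3 : #(s.filter fun w => A i w.1 v) ≤ 1 := by
    rw [card_le_one]
    intro a ha b hb
    simp only [mem_filter] at ha hb
    exact Subtype.ext (S.inn i _ _ v ha.2 hb.2)
  omega

theorem Sys.exists_match (S : Sys G A) (v : V) :
    ∃ f : {w // G.Adj v w} → ι, Function.Injective f ∧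
      (∀ w, A (f w) v w.1 ∨ A (f w) w.1 v) ∧
      ∀ i w, A i v w → ∃ x, f x = i := by
  let T : {w // G.Adj v w} → Finset ι := fun w => univ.filter fun i => A i v w.1 ∨ A i w.1 v
  have hT : ∀ w, #(T w) = 2 := fun w => S.two v w.1 w.2
  have hall : ∃ f : {w // G.Adj v w} → ι, Function.Injective f ∧ ∀ x, f x ∈ T x := by
    rw [← Finset.all_card_le_biUnion_card_iff_exists_injective]
    intro s
    have h := Finset.card_mul_le_card_mul (s := s) (t := s.biUnion T) (m := 2) (n := 2)
      (fun w i => A i v w.1 ∨ A i w.1 v) ?_ ?_
    · omega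
    · intro w hw
      rw [← hT w]
      apply card_le_card
      intro i hi
      rw [mem_bipartiteAbove]
      exact ⟨mem_biUnion.2 ⟨w, hw, hi⟩, (mem_filter.1 hi).2⟩
    · intro i _
      exact S.below_le v s i
  obtain ⟨f, hf, hfT⟩ := hall
  refine ⟨f, hf, fun w => (mem_filter.1 (hfT w)).2, ?_⟩
  let I : Finset ι := univ.filter fun i => ∃ w, A i v w
  have hcard : #(univ : Finset {w // G.Adj v w}) * 2 = #I * 2 := by
    refine Finset.card_mul_eq_card_mul (s := univ) (t := I) (m := 2) (n := 2)
      (fun w i => A i v w.1 ∨ A i w.1 v) ?_ ?_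
    · intro w _
      rw [← hT w]
      congr 1
      ext i
      rw [mem_bipartiteAbove]
      simp only [I, T, mem_filter, mem_univ, true_and]
      constructor
      · exact fun h => h.2
      · intro h
        refine ⟨?_, h⟩
        rcases h with h | h
        · exact ⟨_, h⟩
        · exact S.nxt _ _ _ h
    · intro i hi
      simp only [I, mem_filter, mem_univ, true_and] at hi
      obtain ⟨w, hw⟩ := hi
      obtain ⟨t, ht⟩ := S.prv _ _ _ hw
      have hne : (⟨w, S.adj _ _ _ hw⟩ : {w // G.Adj v w}) ≠ ⟨t, (S.adj _ _ _ ht).symm⟩ := by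
        intro h
        have h' : w = t := congrArg Subtype.val h
        subst h'
        exact S.anti _ _ _ hw ht
      have h2 : Finset.bipartiteBelow (fun (w : {w // G.Adj v w}) i => A i v w.1 ∨ A i w.1 v)
          univ i = {⟨w, S.adj _ _ _ hw⟩, ⟨t, (S.adj _ _ _ ht).symm⟩} := by
        ext x
        rw [mem_bipartiteBelow]
        simp only [mem_univ, true_and, mem_insert, mem_singleton]
        constructor
        · rintro (h | h)
          · left
            exact Subtype.ext (S.out _ _ _ _ h hw)
          · right
            exact Subtype.ext (S.inn _ _ _ _ h ht)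
        · rintro (rfl | rfl)
          · left; exact hw
          · right; exact ht
      rw [h2, card_pair hne]
  have himg : univ.image f = I := by
    apply eq_of_subset_of_card_le
    · intro i hi
      obtain ⟨w, _, rfl⟩ := mem_image.1 hi
      have := (mem_filter.1 (hfT w)).2
      simp only [I, mem_filter, mem_univ, true_and]
      rcases this with h | h
      · exact ⟨_, h⟩
      · exact S.nxt _ _ _ h
    · rw [card_image_of_injective _ hf]
      omega
  intro i w hw
  have : i ∈ univ.image f := by
    rw [himg]
    simp only [I, mem_filter, mem_univ, true_and]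
    exact ⟨w, hw⟩
  obtain ⟨x, _, hx⟩ := mem_image.1 this
  exact ⟨x, hx⟩

/-- the matching, chosen at every vertex -/
theorem Sys.exists_L (S : Sys G A) : ∃ L : ∀ v w, G.Adj v w → ι,
    (∀ v w (h : G.Adj v w), A (L v w h) v w ∨ A (L v w h) w v) ∧
    (∀ v w w' (h : G.Adj v w) (h' : G.Adj v w'), L v w h = L v w' h' → w = w') ∧
    (∀ i v w t (h : G.Adj v w) (h' : G.Adj v t), A i v w → A i t v →
      (L v w h = i ↔ ¬ L v t h' = i)) := by
  choose f hf1 hf2 hf3 using S.exists_match
  refine ⟨fun v w h => f v ⟨w, h⟩, fun v w h => hf2 v ⟨w, h⟩, ?_, ?_⟩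
  · intro v w w' h h' e
    exact congrArg Subtype.val (hf1 v e)
  · intro i v w t h h' hw ht
    have hne : w ≠ t := by
      rintro rfl
      exact S.anti _ _ _ hw ht
    constructor
    · intro h1 h2
      exact hne (congrArg Subtype.val (hf1 v (h1.trans h2.symm)))
    · intro h1
      obtain ⟨x, hx⟩ := hf3 v i w hw
      rcases hf2 v x with h3 | h3
      · rw [hx] at h3
        have : x = ⟨w, h⟩ := Subtype.ext (S.out _ _ _ _ h3 hw)
        rw [this] at hx
        exact hx
      · rw [hx] at h3
        have : x = ⟨t, h'⟩ := Subtype.ext (S.inn _ _ _ _ h3 ht)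
        rw [this] at hx
        exact absurd hx h1

/-- The signature and the signs. -/
theorem Sys.exists_signature (S : Sys G A) : ∃ (φ : Sym2 V → Bool) (s : ι → V → Bool),
    (∀ i u v, A i u v → s i v = xor (s i u) (φ s(u, v))) ∧
    ∀ u v, G.Adj u v → ∀ a : Bool,
      (∑ i, ((if A i u v ∧ s i u = a then 1 else 0) + (if A i v u ∧ (!s i u) = a then 1 else 0)))
        = 1 := by
  obtain ⟨L, hL1, hL2, hL3⟩ := S.exists_L
  let φ : Sym2 V → Bool := fun e =>
    decide (∃ (u v : V) (h : G.Adj u v), e = s(u, v) ∧ L u v h = L v u h.symm)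
  let s : ι → V → Bool := fun i v => decide (∃ (w : V) (h : G.Adj v w), A i v w ∧ L v w h = i)
  have hφ : ∀ u v (h : G.Adj u v), φ s(u, v) = true ↔ L u v h = L v u h.symm := by
    intro u v h
    simp only [φ, decide_eq_true_eq]
    constructor
    · rintro ⟨u', v', h', e, hh⟩
      rw [Sym2.eq_iff] at e
      rcases e with ⟨rfl, rfl⟩ | ⟨rfl, rfl⟩
      · exact hh
      · exact hh.symm
    · intro hh
      exact ⟨u, v, h, rfl, hh⟩
  have hs1 : ∀ i u v (h : G.Adj u v), A i u v → (s i u = true ↔ L u v h = i) := by
    intro i u v h hA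
    simp only [s, decide_eq_true_eq]
    constructor
    · rintro ⟨w, hw, h1, h2⟩
      have := S.out _ _ _ _ h1 hA
      subst this
      exact h2
    · intro h2
      exact ⟨v, h, hA, h2⟩
  have hs2 : ∀ i u v (h : G.Adj u v), A i v u → (s i u = true ↔ ¬ L u v h = i) := by
    intro i u v h hA
    obtain ⟨w, hw⟩ := S.nxt _ _ _ hA
    rw [hs1 i u w (S.adj _ _ _ hw) hw]
    exact hL3 i u w v (S.adj _ _ _ hw) h hw hA
  have hT : ∀ u v, G.Adj u v → ∀ i j k : ι, (A i u v ∨ A i v u) → (A j u v ∨ A j v u) →
      (A k u v ∨ A k v u) → j ≠ i → k ≠ i → j = k := by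
    intro u v h i j k hi hj hk hji hki
    by_contra hjk
    have h3 : #({i, j, k} : Finset ι) = 3 := by
      rw [card_insert_of_notMem, card_insert_of_notMem, card_singleton]
      · simpa using hjk
      · simp only [mem_insert, mem_singleton, not_or]
        exact ⟨hji.symm, hki.symm⟩
    have h4 : ({i, j, k} : Finset ι) ⊆ univ.filter fun i => A i u v ∨ A i v u := by
      intro x hx
      simp only [mem_insert, mem_singleton] at hx
      simp only [mem_filter, mem_univ, true_and]
      rcases hx with rfl | rfl | rfl
      · exact hi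
      · exact hj
      · exact hk
    have := card_le_card h4
    rw [S.two u v h] at this
    omega
  refine ⟨φ, s, ?_, ?_⟩
  · intro i u v hA
    have h := S.adj _ _ _ hA
    have e1 := hs1 i u v h hA
    have e2 := hs2 i v u h.symm hA
    have e3 := hφ u v h
    by_cases c1 : L u v h = i
    · have f1 : s i u = true := e1.2 c1
      by_cases c2 : L v u h.symm = i
      · have f2 : s i v = false := by
          rw [← Bool.not_eq_true]
          exact fun hh => e2.1 hh c2
        have f3 : φ s(u, v) = true := e3.2 (c1.trans c2.symm)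
        rw [f1, f2, f3]; rfl
      · have f2 : s i v = true := e2.2 c2
        have f3 : φ s(u, v) = false := by
          rw [← Bool.not_eq_true]
          intro hh
          exact c2 ((e3.1 hh).symm.trans c1)
        rw [f1, f2, f3]; rfl
    · have f1 : s i u = false := by
        rw [← Bool.not_eq_true]
        exact fun hh => c1 (e1.1 hh)
      by_cases c2 : L v u h.symm = i
      · have f2 : s i v = false := by
          rw [← Bool.not_eq_true]
          exact fun hh => e2.1 hh c2
        have f3 : φ s(u, v) = false := by
          rw [← Bool.not_eq_true]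
          intro hh
          exact c1 ((e3.1 hh).trans c2)
        rw [f1, f2, f3]; rfl
      · have f2 : s i v = true := e2.2 c2
        have f3 : φ s(u, v) = true := by
          rw [e3]
          exact hT u v h i _ _ (Or.inl hA) (hL1 u v h) (hL1 v u h.symm).symm c1 c2
        rw [f1, f2, f3]; rfl
  · intro u v h a
    have key : ∀ i, ((if A i u v ∧ s i u = a then 1 else 0) +
        (if A i v u ∧ (!s i u) = a then 1 else 0) : ℕ) =
        if (A i u v ∨ A i v u) ∧ decide (L u v h = i) = a then 1 else 0 := by
      intro i
      by_cases h1 : A i u v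
      · have h2 : ¬ A i v u := S.anti _ _ _ h1
        have h3 : s i u = decide (L u v h = i) := by
          rw [Bool.eq_iff_iff, hs1 i u v h h1, decide_eq_true_eq]
        simp [h1, h2, h3]
      · by_cases h2 : A i v u
        · have h3 : (!s i u) = decide (L u v h = i) := by
            rw [Bool.eq_iff_iff, Bool.not_eq_true', ← Bool.not_eq_true, hs2 i u v h h2, not_not,
              decide_eq_true_eq]
          simp [h1, h2, h3]
        · simp [h1, h2]
    rw [sum_congr rfl fun i _ => key i, ← card_filter]
    have h2 := S.two u v h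
    have hmem : L u v h ∈ univ.filter fun i => A i u v ∨ A i v u := by
      simp only [mem_filter, mem_univ, true_and]
      exact hL1 u v h
    cases a
    · have : (univ.filter fun i => (A i u v ∨ A i v u) ∧ decide (L u v h = i) = false) =
          (univ.filter fun i => A i u v ∨ A i v u).erase (L u v h) := by
        ext i
        simp only [mem_filter, mem_univ, true_and, mem_erase, decide_eq_false_iff_not]
        constructor
        · rintro ⟨x1, x2⟩
          exact ⟨fun hh => x2 hh.symm, x1⟩
        · rintro ⟨x1, x2⟩
          exact ⟨x2, fun hh => x1 hh.symm⟩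
      rw [this, card_erase_of_mem hmem, h2]
    · have : (univ.filter fun i => (A i u v ∨ A i v u) ∧ decide (L u v h = i) = true) =
          {L u v h} := by
        ext i
        simp only [mem_filter, mem_univ, true_and, mem_singleton, decide_eq_true_eq]
        constructor
        · rintro ⟨_, x2⟩
          exact x2.symm
        · rintro rfl
          exact ⟨hL1 u v h, rfl⟩
      rw [this, card_singleton]

end Pool.Agent.K4H37.TF
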