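import Pool.Agent.K4H37.TF.Walk
import Pool.Agent.K4H80.OK.Two

/-! Two-fold covers: the theorem (helper for MP_781dd6_co). -/

set_option autoImplicit false

namespace Pool.Agent.K4H37.TF

open SimpleGraph Finset
open scoped Classical

/-- how often the closed walks of the list `C` traverse the arc from `u` to `v` -/
noncomputable def uses {V : Type} {G : SimpleGraph V} (C : List (Σ v : V, G.Walk v v)) (u v : V) :
    ℕ :=
  (C.map (fun c => (c.2.darts.filter (fun d => decide (d.toProd = (u, v)))).length)).sum

theorem uses_eq {V : Type} {G : SimpleGraph V} (C : List (Σ v : V, G.Walk v v))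
    (hC : ∀ c ∈ C, c.2.IsCycle) (u v : V) :
    uses C u v = ∑ i : Fin C.length, if Arc (C.get i).2 u v then 1 else 0 := by
  have h1 : uses C u v = (((List.finRange C.length).map C.get).map
      (fun c => (c.2.darts.filter (fun d => decide (d.toProd = (u, v)))).length)).sum := by
    have h0 : (List.finRange C.length).map C.get = C := by
      apply List.ext_get
      · simp
      · intro n h1 h2
        simp
    rw [h0]
    rfl
  rw [h1, List.map_map, Fin.sum_univ_def]
  congr 1
  apply List.map_congr_left
  intro i _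
  exact count_arc (hC _ (List.get_mem C i)) u v

theorem main {V : Type} [Fintype V] (G : SimpleGraph V) (C : List (Σ v : V, G.Walk v v))
    (hC : ∀ c ∈ C, c.2.IsCycle) (h2 : ∀ u v, G.Adj u v → uses C u v + uses C v u = 2) :
    ∃ (φ : Sym2 V → Bool) (D : List (Σ x : V × Bool, (cover G φ).Walk x x)),
      (∀ c ∈ D, c.2.IsCycle ∧ (c.2.map (proj G φ)).IsCycle) ∧
      ∀ x y, (cover G φ).Adj x y → uses D x y = 1 := by
  let A : Fin C.length → V → V → Prop := fun i u v => Arc (C.get i).2 u v
  have hcyc : ∀ i, (C.get i).2.IsCycle := fun i => hC _ (List.get_mem C i)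
  have S : Sys G A :=
    { adj := fun i u v h => Arc.adj h
      out := fun i u v w h h' => out (hcyc i) h h'
      inn := fun i u v w h h' => inn (hcyc i) h h'
      nxt := fun i u v h => nxt (hcyc i) h
      prv := fun i u v h => prv (hcyc i) h
      anti := fun i u v h => anti (hcyc i) h
      two := by
        intro u v h
        have h3 := h2 u v h
        rw [uses_eq C hC, uses_eq C hC, ← sum_add_distrib] at h3
        rw [← h3, card_filter]
        apply sum_congr rfl
        intro i _
        change (if (A i u v ∨ A i v u) then 1 else 0) =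
          (if A i u v then 1 else 0) + (if A i v u then 1 else 0)
        by_cases c1 : A i u v
        · have c2 : ¬ A i v u := anti (hcyc i) c1
          rw [if_pos (Or.inl c1), if_pos c1, if_neg c2]
        · by_cases c2 : A i v u
          · rw [if_pos (Or.inr c2), if_neg c1, if_pos c2]
          · rw [if_neg (not_or.2 ⟨c1, c2⟩), if_neg c1, if_neg c2] }
  obtain ⟨φ, s, hs, hcount⟩ := S.exists_signature
  have H1 : ∀ i, ∀ d ∈ (C.get i).2.darts, s i d.snd = xor (s i d.fst) (φ s(d.fst, d.snd)) :=
    fun i d hd => hs i _ _ ⟨d, hd, rfl⟩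
  have H2 : ∀ i, ∀ d ∈ (C.get i).2.reverse.darts,
      (!s i d.snd) = xor (!s i d.fst) (φ s(d.fst, d.snd)) := by
    intro i d hd
    have h3 : Arc (C.get i).2 d.snd d.fst := arc_reverse.1 ⟨d, hd, rfl⟩
    have h4 := hs i _ _ h3
    rw [h4, Sym2.eq_swap]
    cases s i d.snd <;> cases φ s(d.fst, d.snd) <;> rfl
  let D1 : Fin C.length → (Σ x : V × Bool, (cover G φ).Walk x x) :=
    fun i => ⟨_, liftWalk φ (s i) (C.get i).2 (H1 i)⟩
  let D2 : Fin C.length → (Σ x : V × Bool, (cover G φ).Walk x x) :=
    fun i => ⟨_, liftWalk φ (fun v => !s i v) (C.get i).2.reverse (H2 i)⟩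
  refine ⟨φ, (List.finRange C.length).map D1 ++ (List.finRange C.length).map D2, ?_, ?_⟩
  · intro c hc
    rw [List.mem_append, List.mem_map, List.mem_map] at hc
    rcases hc with ⟨i, _, rfl⟩ | ⟨i, _, rfl⟩
    · exact ⟨lift_isCycle _ (hcyc i) (H1 i), lift_map_isCycle _ (hcyc i) (H1 i)⟩
    · exact ⟨lift_isCycle _ (hcyc i).reverse (H2 i), lift_map_isCycle _ (hcyc i).reverse (H2 i)⟩
  · rintro ⟨u, a⟩ ⟨v, b⟩ ⟨h, hb⟩
    simp only at h hb
    unfold uses
    rw [List.map_append, List.sum_append, List.map_map, List.map_map, ← Fin.sum_univ_def,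
      ← Fin.sum_univ_def, ← sum_add_distrib, ← hcount u v h a]
    apply sum_congr rfl
    intro i _
    congr 1
    · simp only [Function.comp_apply, D1]
      rw [count_arc (lift_isCycle _ (hcyc i) (H1 i))]
      congr 1
      rw [eq_iff_iff]
      unfold Arc
      have e := lift_darts (C.get i).2 (H1 i)
      constructor
      · rintro ⟨d, hd, e'⟩
        have : d.toProd ∈ (liftWalk φ (s i) (C.get i).2 (H1 i)).darts.map (fun d => d.toProd) :=
          List.mem_map.2 ⟨d, hd, rfl⟩
        rw [e, List.mem_map] at this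
        obtain ⟨d', hd', e''⟩ := this
        rw [e'] at e''
        simp only [Prod.mk.injEq] at e''
        exact ⟨⟨d', hd', by rw [← e''.1.1, ← e''.2.1]⟩, by rw [← e''.1.1]; exact e''.1.2⟩
      · rintro ⟨⟨d, hd, e'⟩, hsu⟩
        have h5 : ((d.fst, s i d.fst), (d.snd, s i d.snd)) ∈
            (C.get i).2.darts.map fun d => ((d.fst, s i d.fst), (d.snd, s i d.snd)) :=
          List.mem_map.2 ⟨d, hd, rfl⟩
        rw [← e, List.mem_map] at h5
        obtain ⟨d', hd', e''⟩ := h5
        refine ⟨d', hd', ?_⟩
        have h6 : d.fst = u := congrArg Prod.fst e'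
        have h7 : d.snd = v := congrArg Prod.snd e'
        rw [e'', H1 i d hd, h6, h7, hsu, hb]
    · simp only [Function.comp_apply, D2]
      rw [count_arc (lift_isCycle _ (hcyc i).reverse (H2 i))]
      congr 1
      rw [eq_iff_iff]
      have e := lift_darts (s := fun v => !s i v) (C.get i).2.reverse (H2 i)
      constructor
      · rintro ⟨d, hd, e'⟩
        have : d.toProd ∈ (liftWalk φ (fun v => !s i v) (C.get i).2.reverse (H2 i)).darts.map
            (fun d => d.toProd) := List.mem_map.2 ⟨d, hd, rfl⟩
        rw [e, List.mem_map] at this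
        obtain ⟨d', hd', e''⟩ := this
        rw [e'] at e''
        simp only [Prod.mk.injEq] at e''
        refine ⟨arc_reverse.1 ⟨d', hd', by rw [← e''.1.1, ← e''.2.1]⟩, ?_⟩
        rw [← e''.1.1]; exact e''.1.2
      · rintro ⟨h8, hsu⟩
        obtain ⟨d, hd, e'⟩ := arc_reverse.2 h8
        have h5 : ((d.fst, !s i d.fst), (d.snd, !s i d.snd)) ∈
            (C.get i).2.reverse.darts.map fun d => ((d.fst, !s i d.fst), (d.snd, !s i d.snd)) :=
          List.mem_map.2 ⟨d, hd, rfl⟩
        rw [← e, List.mem_map] at h5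
        obtain ⟨d', hd', e''⟩ := h5
        refine ⟨d', hd', ?_⟩
        have h6 : d.fst = u := congrArg Prod.fst e'
        have h7 : d.snd = v := congrArg Prod.snd e'
        rw [e'', H2 i d hd, h6, h7, hsu, hb]

end Pool.Agent.K4H37.TF
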