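import Pool.Agent.K4H37.TF.Comb

/-! Two-fold covers: lifts of directed cycles (helper for MP_781dd6_co). -/

set_option autoImplicit false

namespace Pool.Agent.K4H37.TF

open SimpleGraph
open scoped Classical

variable {V : Type}

/-- the two-fold cover of `G` with signature `φ` -/
def cover (G : SimpleGraph V) (φ : Sym2 V → Bool) : SimpleGraph (V × Bool) where
  Adj x y := G.Adj x.1 y.1 ∧ y.2 = xor x.2 (φ s(x.1, y.1))
  symm := by
    constructor
    rintro ⟨u, a⟩ ⟨v, b⟩ ⟨h1, h2⟩
    refine ⟨h1.symm, ?_⟩
    simp only at *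
    rw [h2, Sym2.eq_swap, Bool.xor_assoc, Bool.xor_self, Bool.xor_false]
  loopless := ⟨fun x h => G.irrefl h.1⟩

/-- the lift of a walk along a sign function -/
def liftWalk {G : SimpleGraph V} (φ : Sym2 V → Bool) (s : V → Bool) : ∀ {u v : V} (w : G.Walk u v),
    (∀ d ∈ w.darts, s d.snd = xor (s d.fst) (φ s(d.fst, d.snd))) →
      (cover G φ).Walk (u, s u) (v, s v)
  | _, _, .nil, _ => .nil
  | _, _, .cons h p, H => .cons (show (cover G φ).Adj _ _ from ⟨h, H ⟨(_, _), h⟩ (by simp)⟩)
      (liftWalk φ s p fun d hd => H d (by simp [hd]))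

variable {G : SimpleGraph V} {φ : Sym2 V → Bool} {s : V → Bool}

theorem lift_support {u v : V} (w : G.Walk u v)
    (H : ∀ d ∈ w.darts, s d.snd = xor (s d.fst) (φ s(d.fst, d.snd))) :
    (liftWalk φ s w H).support = w.support.map fun x => (x, s x) := by
  induction w with
  | nil => simp [liftWalk]
  | cons h p ih => simp [liftWalk, ih]

theorem lift_darts {u v : V} (w : G.Walk u v)
    (H : ∀ d ∈ w.darts, s d.snd = xor (s d.fst) (φ s(d.fst, d.snd))) :
    (liftWalk φ s w H).darts.map (fun d => d.toProd) =
      w.darts.map fun d => ((d.fst, s d.fst), (d.snd, s d.snd)) := by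
  induction w with
  | nil => simp [liftWalk]
  | cons h p ih => simp [liftWalk, ih]

theorem lift_edges {u v : V} (w : G.Walk u v)
    (H : ∀ d ∈ w.darts, s d.snd = xor (s d.fst) (φ s(d.fst, d.snd))) :
    (liftWalk φ s w H).edges = w.edges.map (Sym2.map fun x => (x, s x)) := by
  induction w with
  | nil => simp [liftWalk]
  | cons h p ih => simp [liftWalk, ih]

theorem lift_isCycle {u : V} (w : G.Walk u u) (hw : w.IsCycle)
    (H : ∀ d ∈ w.darts, s d.snd = xor (s d.fst) (φ s(d.fst, d.snd))) :
    (liftWalk φ s w H).IsCycle := by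
  have hinj : Function.Injective fun x : V => (x, s x) := fun a b h => congrArg Prod.fst h
  rw [Walk.isCycle_def]
  refine ⟨?_, ?_, ?_⟩
  · rw [Walk.isTrail_def, lift_edges]
    exact (List.nodup_map_iff (Sym2.map.injective hinj)).2 hw.edges_nodup
  · intro h
    have h1 := congrArg Walk.length h
    have h2 : (liftWalk φ s w H).length = w.length := by
      rw [← Walk.length_darts, ← Walk.length_darts]
      have := congrArg List.length (lift_darts w H)
      simpa using this
    rw [h2, Walk.length_nil] at h1
    have := hw.three_le_length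
    omega
  · rw [lift_support, ← List.map_tail]
    exact (List.nodup_map_iff hinj).2 hw.support_nodup

/-- the projection of the cover -/
def proj (G : SimpleGraph V) (φ : Sym2 V → Bool) : cover G φ →g G where
  toFun := Prod.fst
  map_rel' := fun h => h.1

theorem lift_map_isCycle {u : V} (w : G.Walk u u) (hw : w.IsCycle)
    (H : ∀ d ∈ w.darts, s d.snd = xor (s d.fst) (φ s(d.fst, d.snd))) :
    ((liftWalk φ s w H).map (proj G φ)).IsCycle := by
  have : ∀ {u v : V} (w : G.Walk u v)
      (H : ∀ d ∈ w.darts, s d.snd = xor (s d.fst) (φ s(d.fst, d.snd))),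
      (liftWalk φ s w H).map (proj G φ) = w := by
    intro u v w
    induction w with
    | nil => intro H; rfl
    | cons h p ih =>
      intro H
      simp only [liftWalk, Walk.map_cons]
      rw [ih]
      rfl
  rw [this w H]
  exact hw

/-- the arcs of a walk -/
def Arc {u v : V} (w : G.Walk u v) (x y : V) : Prop := ∃ d ∈ w.darts, d.toProd = (x, y)

theorem Arc.adj {u v : V} {w : G.Walk u v} {x y : V} (h : Arc w x y) : G.Adj x y := by
  obtain ⟨d, _, h⟩ := h
  have := d.adj
  rw [h] at this
  exact this

theorem inn {u : V} {w : G.Walk u u} (hw : w.IsCycle) {x y z : V} (h1 : Arc w x z)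
    (h2 : Arc w y z) : x = y := by
  obtain ⟨d, hd, e⟩ := h1
  obtain ⟨d', hd', e'⟩ := h2
  have hn : (w.darts.map (·.snd)).Nodup := by
    rw [Walk.map_snd_darts]
    exact hw.support_nodup
  have := List.inj_on_of_nodup_map hn hd hd' (by rw [e, e'])
  subst this
  rw [e] at e'
  exact congrArg Prod.fst e'

theorem arc_reverse {u v : V} {w : G.Walk u v} {x y : V} : Arc w.reverse x y ↔ Arc w y x := by
  unfold Arc
  rw [Walk.darts_reverse]
  constructor
  · rintro ⟨d, hd, e⟩
    rw [List.mem_reverse, List.mem_map] at hd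
    obtain ⟨d', hd', rfl⟩ := hd
    refine ⟨d', hd', ?_⟩
    have : d'.symm.toProd = d'.toProd.swap := rfl
    rw [this] at e
    rw [← Prod.swap_swap d'.toProd, e]
    rfl
  · rintro ⟨d, hd, e⟩
    refine ⟨d.symm, ?_, ?_⟩
    · rw [List.mem_reverse, List.mem_map]
      exact ⟨d, hd, rfl⟩
    · have : d.symm.toProd = d.toProd.swap := rfl
      rw [this, e]
      rfl

theorem out {u : V} {w : G.Walk u u} (hw : w.IsCycle) {x y z : V} (h1 : Arc w x y)
    (h2 : Arc w x z) : y = z :=
  inn hw.reverse (arc_reverse.2 h1) (arc_reverse.2 h2)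

theorem nxt {u : V} {w : G.Walk u u} (hw : w.IsCycle) {x y : V} (h : Arc w x y) :
    ∃ z, Arc w y z := by
  obtain ⟨d, hd, e⟩ := h
  have hy : y ∈ w.support := by
    have := w.dart_snd_mem_support_of_mem_darts hd
    have h2 : d.snd = y := congrArg Prod.snd e
    rwa [h2] at this
  have hy' : y ∈ w.darts.map (·.fst) := by
    rw [Walk.map_fst_darts]
    have hne : w.support ≠ [] := by simp
    have hlast : w.support.getLast hne = u := w.getLast_support
    rw [← List.dropLast_append_getLast hne, List.mem_append, List.mem_singleton] at hy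
    rcases hy with hy | hy
    · exact hy
    · rw [hlast] at hy
      subst hy
      rw [← Walk.map_fst_darts]
      cases w with
      | nil => exact absurd rfl hw.ne_nil
      | cons h p => simp
  obtain ⟨d', hd', e'⟩ := List.mem_map.1 hy'
  exact ⟨d'.snd, d', hd', by rw [← e']⟩

theorem prv {u : V} {w : G.Walk u u} (hw : w.IsCycle) {x y : V} (h : Arc w x y) :
    ∃ z, Arc w z x := by
  obtain ⟨z, hz⟩ := nxt hw.reverse (arc_reverse.2 h)
  exact ⟨z, arc_reverse.1 hz⟩

theorem anti {u : V} {w : G.Walk u u} (hw : w.IsCycle) {x y : V} (h : Arc w x y) :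
    ¬ Arc w y x := by
  rintro ⟨d', hd', e'⟩
  have hxy := h.adj
  obtain ⟨d, hd, e⟩ := h
  have hn : (w.darts.map Dart.edge).Nodup := hw.edges_nodup
  have := List.inj_on_of_nodup_map hn hd hd' (by
    change s(d.toProd.1, d.toProd.2) = s(d'.toProd.1, d'.toProd.2)
    rw [e, e']
    exact Sym2.eq_swap)
  subst this
  rw [e] at e'
  have h1 : x = y := congrArg Prod.fst e'
  exact hxy.ne h1

theorem count_arc {u : V} {w : G.Walk u u} (hw : w.IsCycle) (x y : V) :
    (w.darts.filter (fun d => decide (d.toProd = (x, y)))).length = if Arc w x y then 1 else 0 := by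
  have hn : w.darts.Nodup := List.Nodup.of_map _ hw.edges_nodup
  split_ifs with h
  · obtain ⟨d, hd, e⟩ := h
    have : w.darts.filter (fun d => decide (d.toProd = (x, y))) = w.darts.filter (· == d) := by
      apply List.filter_congr
      intro d' _
      rw [Bool.eq_iff_iff]
      simp only [decide_eq_true_eq, beq_iff_eq]
      constructor
      · intro h
        exact Dart.ext _ _ (h.trans e.symm)
      · rintro rfl
        exact e
    rw [this, ← List.countP_eq_length_filter]
    exact List.count_eq_one_of_mem hn hd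
  · rw [List.length_eq_zero_iff, List.filter_eq_nil_iff]
    intro d hd h'
    exact h ⟨d, hd, by simpa using h'⟩

end Pool.Agent.K4H37.TF
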